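import Mathlib

/-!
The least number of terms or clauses of a DNF or CNF with exactly `k` satisfying assignments is not
bounded by a polynomial in the logarithm of the number of blocks of `k`.
-/

open Finset

namespace Pool.Agent.Results.MP_94c5d9_co.BlockCount

/-- A set of literals over the variables `x_0, …, x_(n-1)`; the literal `(i, true)` is the variable
`x_i`, the literal `(i, false)` its negation. -/
abbrev Lits (n : ℕ) : Type := Finset (Fin n × Bool)

/-- The number of satisfying assignments of the DNF with terms `D 0, …, D (t-1)`. -/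
def countDNF {n t : ℕ} (D : Fin t → Lits n) : ℕ :=
  #{x : Fin n → Bool | ∃ i, ∀ l ∈ D i, x l.1 = l.2}

/-- The number of satisfying assignments of the CNF with clauses `D 0, …, D (t-1)`. -/
def countCNF {n t : ℕ} (D : Fin t → Lits n) : ℕ :=
  #{x : Fin n → Bool | ∀ i, ∃ l ∈ D i, x l.1 = l.2}

/-- `β(k)`: the least number of terms or clauses of a DNF or CNF with exactly `k` satisfying
assignments. -/
noncomputable def beta (k : ℕ) : ℕ :=
  sInf {t | ∃ (n : ℕ) (D : Fin t → Lits n), countDNF D = k ∨ countCNF D = k}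

/-- The number of maximal runs of ones in the binary form of `k`: the number of positions `i` such
that bit `i` is one and bit `i + 1` is zero. -/
def bl (k : ℕ) : ℕ := #{i ∈ k.bitIndices.toFinset | ¬ k.testBit (i + 1)}

/-! ### Counting -/

/-- The assignments satisfying all literals of `T`. -/
def sats {n : ℕ} (T : Lits n) : Finset (Fin n → Bool) := {x | ∀ l ∈ T, x l.1 = l.2}

lemma mem_sats {n : ℕ} {T : Lits n} {x : Fin n → Bool} : x ∈ sats T ↔ ∀ l ∈ T, x l.1 = l.2 := by
  simp [sats]

lemma card_sats {n : ℕ} (T : Lits n) :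
    sats T = ∅ ∨ (#T ≤ n ∧ #(sats T) = 2 ^ (n - #T)) := by
  rcases (sats T).eq_empty_or_nonempty with h | ⟨x0, hx0⟩
  · exact Or.inl h
  · right
    rw [mem_sats] at hx0
    set V : Finset (Fin n) := T.image Prod.fst with hV
    have hTV : T = V.image fun i => (i, x0 i) := by
      ext l
      rw [hV, image_image, mem_image]
      constructor
      · intro hl
        exact ⟨l, hl, by simp [hx0 l hl]⟩
      · rintro ⟨l', hl', rfl⟩
        simp only [Function.comp_apply]
        rw [hx0 l' hl']; exact hl'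
    have hcard : #T = #V := by
      rw [hTV]
      exact card_image_of_injective _ fun a b h => (Prod.ext_iff.1 h).1
    have hsat : sats T = Fintype.piFinset fun i => if i ∈ V then {x0 i} else univ := by
      ext x
      rw [mem_sats, Fintype.mem_piFinset]
      constructor
      · intro h i
        split_ifs with hi
        · rw [mem_singleton]
          exact h (i, x0 i) (by rw [hTV]; exact mem_image_of_mem _ hi)
        · exact mem_univ _
      · intro h l hl
        have hi : l.1 ∈ V := mem_image_of_mem _ hl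
        have := h l.1
        rw [if_pos hi, mem_singleton] at this
        rw [this, hx0 l hl]
    have hVn : #V ≤ n := by simpa using card_le_univ V
    refine ⟨by rw [hcard]; exact hVn, ?_⟩
    rw [hsat, Fintype.card_piFinset]
    have h1 : ∀ i : Fin n, #(if i ∈ V then ({x0 i} : Finset Bool) else univ) =
        if i ∈ V then 1 else 2 := by
      intro i
      split_ifs <;> simp
    rw [prod_congr rfl fun i _ => h1 i, prod_ite]
    simp only [prod_const_one, one_mul, prod_const]
    congr 1
    rw [hcard, filter_not, card_sdiff_of_subset (filter_subset _ _)]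
    simp

/-- Inclusion-exclusion. -/
lemma incl_excl {n t : ℕ} (A : Fin t → Lits n) :
    (#{x : Fin n → Bool | ∀ i, x ∉ sats (A i)} : ℤ) =
      ∑ S : Finset (Fin t), (-1 : ℤ) ^ #S * #(sats (S.biUnion A)) := by
  have h := inclusion_exclusion_card_inf_compl (univ : Finset (Fin t)) (fun i => sats (A i))
  rw [powerset_univ] at h
  have e1 : ({x : Fin n → Bool | ∀ i, x ∉ sats (A i)} : Finset (Fin n → Bool)) =
      univ.inf fun i => (sats (A i))ᶜ := by
    ext x
    simp [mem_inf]
  rw [e1, h]
  refine sum_congr rfl fun S _ => ?_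
  congr 2
  congr 1
  ext x
  rw [mem_inf, mem_sats]
  simp only [mem_sats, mem_biUnion]
  constructor
  · rintro h l ⟨i, hi, hl⟩
    exact h i hi l hl
  · intro h i hi l hl
    exact h l ⟨i, hi, hl⟩

/-- The window lemma. -/
lemma window {ι : Type*} [DecidableEq ι] (F : Finset ι) (t : ℕ) (hF : #F ≤ 2 ^ t) (c : ι → ℤ)
    (e : ι → ℕ) (hc : ∀ S ∈ F, |c S| ≤ 1) (a r Q : ℕ) (hr : 2 * r ≤ 2 ^ a)
    (h : ∑ S ∈ F, c S * 2 ^ e S = (2 : ℤ) ^ a + r + 2 ^ (a + 1) * Q) :
    ∃ S ∈ F, c S ≠ 0 ∧ e S ≤ a ∧ a ≤ e S + (t + 1) := by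
  by_contra hcon
  push Not at hcon
  have hpow : (0 : ℤ) < 2 ^ a := by positivity
  rw [← sum_filter_add_sum_filter_not F (fun S => e S ≤ a)] at h
  set X : ℤ := ∑ S ∈ F.filter (fun S => e S ≤ a), c S * 2 ^ e S with hX
  set Y : ℤ := ∑ S ∈ F.filter (fun S => ¬ e S ≤ a), c S * 2 ^ e S with hY
  have hX1 : 2 ^ (t + 2) * |X| ≤ 2 ^ t * 2 ^ a := by
    calc 2 ^ (t + 2) * |X| ≤ 2 ^ (t + 2) * ∑ S ∈ F.filter (fun S => e S ≤ a), |c S * 2 ^ e S| := by
          gcongr; exact abs_sum_le_sum_abs _ _
      _ = ∑ S ∈ F.filter (fun S => e S ≤ a), 2 ^ (t + 2) * |c S * 2 ^ e S| := by rw [mul_sum]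
      _ ≤ ∑ _S ∈ F.filter (fun S => e S ≤ a), (2 : ℤ) ^ a := by
          refine sum_le_sum fun S hS => ?_
          rw [mem_filter] at hS
          by_cases h0 : c S = 0
          · rw [h0]; simp
          · have h1 := hcon S hS.1 h0 hS.2
            have h2 : |c S * 2 ^ e S| ≤ 2 ^ e S := by
              rw [abs_mul, abs_of_pos (show (0 : ℤ) < 2 ^ e S by positivity)]
              exact mul_le_of_le_one_left (by positivity) (hc S hS.1)
            calc (2 : ℤ) ^ (t + 2) * |c S * 2 ^ e S| ≤ 2 ^ (t + 2) * 2 ^ e S := by gcongr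
              _ = 2 ^ (t + 2 + e S) := (pow_add 2 (t + 2) (e S)).symm
              _ ≤ 2 ^ a := pow_le_pow_right₀ (by norm_num) (by omega)
      _ = #(F.filter (fun S => e S ≤ a)) * 2 ^ a := by rw [sum_const, nsmul_eq_mul]
      _ ≤ 2 ^ t * 2 ^ a := by
          gcongr
          exact_mod_cast (card_filter_le _ _).trans hF
  have hX2 : 4 * |X| ≤ 2 ^ a := by
    have h1 : (2 : ℤ) ^ t * (4 * |X|) ≤ 2 ^ t * 2 ^ a := by
      calc (2 : ℤ) ^ t * (4 * |X|) = 2 ^ (t + 2) * |X| := by rw [pow_add]; ring
        _ ≤ _ := hX1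
    exact le_of_mul_le_mul_left h1 (by positivity)
  have hY1 : (2 : ℤ) ^ (a + 1) ∣ Y := by
    refine dvd_sum fun S hS => ?_
    rw [mem_filter] at hS
    exact Dvd.dvd.mul_left (pow_dvd_pow _ (by omega)) _
  have hd : (2 : ℤ) ^ (a + 1) ∣ 2 ^ a + r - X := by
    have : (2 : ℤ) ^ a + r - X = Y - 2 ^ (a + 1) * Q := by linarith
    rw [this]
    exact dvd_sub hY1 (dvd_mul_right _ _)
  have hr' : 2 * (r : ℤ) ≤ 2 ^ a := by exact_mod_cast hr
  have habs := abs_le.1 (le_refl |X|)
  have hpos : (0 : ℤ) < 2 ^ a + r - X := by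
    have : (0 : ℤ) ≤ r := by positivity
    linarith [habs.2]
  have hle := Int.le_of_dvd hpos hd
  rw [pow_succ] at hle
  linarith [habs.1]

/-! ### The numbers -/

/-- The exponents. -/
def ex (B m j : ℕ) : ℕ := B ^ (m - 1) - B ^ j

/-- The number with `m` isolated ones at the positions `ex B m j`. -/
def num (B m : ℕ) : ℕ := ∑ j ∈ range m, 2 ^ ex B m j

section

variable {B m : ℕ}

lemma pow_le (hB : 4 ≤ B) {j : ℕ} (hj : j < m) : B ^ j ≤ B ^ (m - 1) :=
  Nat.pow_le_pow_right (by omega) (by omega)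

lemma ex_add (hB : 4 ≤ B) {j : ℕ} (hj : j < m) : ex B m j + B ^ j = B ^ (m - 1) :=
  Nat.sub_add_cancel (pow_le hB hj)

lemma pow_gap (hB : 4 ≤ B) {i j : ℕ} (h : i < j) : B ^ i + 3 ≤ B ^ j := by
  have h1 : B ^ (i + 1) ≤ B ^ j := Nat.pow_le_pow_right (by omega) h
  have h2 : 1 ≤ B ^ i := Nat.one_le_pow _ _ (by omega)
  rw [pow_succ] at h1
  nlinarith

lemma ex_gap (hB : 4 ≤ B) {i j : ℕ} (h : i < j) (hj : j < m) : ex B m j + 3 ≤ ex B m i := by
  have h1 := ex_add hB hj
  have h2 := ex_add hB (h.trans hj)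
  have h3 := pow_gap hB h
  omega

lemma ex_inj (hB : 4 ≤ B) : Set.InjOn (ex B m) (range m : Set ℕ) := by
  intro i hi j hj hij
  rw [coe_range, Set.mem_Iio] at hi hj
  rcases lt_trichotomy i j with h | h | h
  · have := ex_gap hB h hj; omega
  · exact h
  · have := ex_gap hB h hi; omega

lemma num_eq (hB : 4 ≤ B) : num B m = ∑ i ∈ (range m).image (ex B m), 2 ^ i := by
  rw [sum_image (ex_inj hB)]; rfl

lemma bits (hB : 4 ≤ B) : (num B m).bitIndices.toFinset = (range m).image (ex B m) := by
  rw [num_eq hB, toFinset_bitIndices_sum_two_pow]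

lemma bl_num (hB : 4 ≤ B) : bl (num B m) = m := by
  unfold bl
  have h1 : ({i ∈ (num B m).bitIndices.toFinset | ¬ (num B m).testBit (i + 1)} : Finset ℕ) =
      (num B m).bitIndices.toFinset := by
    rw [filter_eq_self]
    intro i hi h
    have h2 : i + 1 ∈ (num B m).bitIndices.toFinset := by
      rw [List.mem_toFinset, Nat.mem_bitIndices]; exact h
    rw [bits hB, mem_image] at hi h2
    obtain ⟨j, hj, rfl⟩ := hi
    obtain ⟨j', hj', h3⟩ := h2
    rw [mem_range] at hj hj'
    rcases lt_trichotomy j j' with h | h | h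
    · have := ex_gap hB h hj'; omega
    · subst h; omega
    · have := ex_gap hB h hj; omega
  rw [h1, bits hB, card_image_of_injOn (ex_inj hB), card_range]

/-- The decomposition of the number around the bit `ex B m j`. -/
lemma num_decomp (hB : 4 ≤ B) {j : ℕ} (hj : j < m) :
    ∃ r Q : ℕ, 2 * r ≤ 2 ^ ex B m j ∧ num B m = 2 ^ ex B m j + r + 2 ^ (ex B m j + 1) * Q := by
  refine ⟨∑ i ∈ Ioo j m, 2 ^ ex B m i, ∑ i ∈ range j, 2 ^ (ex B m i - (ex B m j + 1)), ?_, ?_⟩
  · rcases (Ioo j m).eq_empty_or_nonempty with h | ⟨i0, hi0⟩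
    · rw [h]; simp
    · have hlt : ∀ k ∈ (Ioo j m).image (ex B m), k < ex B m j - 1 := by
        intro k hk
        obtain ⟨i, hi, rfl⟩ := mem_image.1 hk
        rw [mem_Ioo] at hi
        have := ex_gap hB hi.1 hi.2
        omega
      have h1 := Nat.geomSum_lt (le_refl 2) hlt
      rw [sum_image ((ex_inj (m := m) hB).mono (fun i hi => by
        rw [coe_Ioo, Set.mem_Ioo] at hi
        rw [coe_range, Set.mem_Iio]; exact hi.2))] at h1
      rw [mem_Ioo] at hi0
      have h2 := ex_gap hB hi0.1 hi0.2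
      have h3 : 2 ^ ex B m j = 2 * 2 ^ (ex B m j - 1) := by
        rw [← pow_succ']; congr 1; omega
      omega
  · have h1 : 2 ^ (ex B m j + 1) * ∑ i ∈ range j, 2 ^ (ex B m i - (ex B m j + 1)) =
        ∑ i ∈ range j, 2 ^ ex B m i := by
      rw [mul_sum]
      refine sum_congr rfl fun i hi => ?_
      rw [mem_range] at hi
      have := ex_gap hB hi hj
      rw [← pow_add]; congr 1; omega
    rw [h1]
    unfold num
    have h2 : range m = insert j (Ioo j m ∪ range j) := by
      ext i
      simp only [mem_range, mem_insert, mem_union, mem_Ioo]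
      omega
    have h3 : Disjoint (Ioo j m) (range j) := by
      rw [disjoint_left]
      intro i hi
      rw [mem_Ioo] at hi
      rw [mem_range]; omega
    rw [h2, sum_insert (by simp), sum_union h3]
    ring

lemma num_lt (hB : 4 ≤ B) : num B m < 2 ^ B ^ (m - 1) := by
  rw [num_eq hB]
  refine Nat.geomSum_lt (le_refl 2) fun k hk => ?_
  obtain ⟨i, hi, rfl⟩ := mem_image.1 hk
  rw [mem_range] at hi
  have h1 := ex_add hB hi
  have h2 : 1 ≤ B ^ i := Nat.one_le_pow _ _ (by omega)
  omega

lemma num_gt (hB : 4 ≤ B) (hm : 2 ≤ m) : 2 ^ (B ^ (m - 1) - 1) < num B m := by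
  unfold num
  have h1 : range m = insert 0 ((range m).erase 0) := by
    rw [insert_erase]; rw [mem_range]; omega
  rw [h1, sum_insert (notMem_erase _ _)]
  have h2 : ex B m 0 = B ^ (m - 1) - 1 := by simp [ex]
  rw [h2]
  have h3 : 0 < ∑ i ∈ (range m).erase 0, 2 ^ ex B m i := by
    refine sum_pos (fun i _ => by positivity) ⟨1, ?_⟩
    rw [mem_erase, mem_range]; omega
  omega

end

/-! ### The lower bound -/

lemma biUnion_card_le {n t : ℕ} (A : Fin t → Lits n) (S : Finset (Fin t)) (C : Lits n) (μ : ℕ)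
    (h : ∀ l ∈ S, #(A l \ C) ≤ μ) : #(S.biUnion A) ≤ #C + t * μ := by
  have h1 : S.biUnion A ⊆ C ∪ S.biUnion fun l => A l \ C := by
    intro x hx
    rw [mem_biUnion] at hx
    obtain ⟨l, hl, hx⟩ := hx
    by_cases hC : x ∈ C
    · exact mem_union_left _ hC
    · exact mem_union_right _ (mem_biUnion.2 ⟨l, hl, Finset.mem_sdiff.2 ⟨hx, hC⟩⟩)
  calc #(S.biUnion A) ≤ #C + #(S.biUnion fun l => A l \ C) :=
        (card_le_card h1).trans (card_union_le _ _)
    _ ≤ #C + #S * μ := by gcongr; exact card_biUnion_le_card_mul _ _ _ h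
    _ ≤ #C + t * μ := by
        gcongr
        simpa using card_le_univ S

/-- Windows for the number of satisfying assignments. -/
lemma windows {n t B m : ℕ} (hB : 4 ≤ B) (A : Fin t → Lits n) (c : Finset (Fin t) → ℤ)
    (hc : ∀ S, |c S| ≤ 1)
    (h : (num B m : ℤ) = ∑ S : Finset (Fin t), c S * #(sats (S.biUnion A))) (j : ℕ) (hj : j < m) :
    ∃ S : Finset (Fin t), c S ≠ 0 ∧ (sats (S.biUnion A)).Nonempty ∧ #(S.biUnion A) ≤ n ∧
      n + B ^ j ≤ #(S.biUnion A) + B ^ (m - 1) ∧
      #(S.biUnion A) + B ^ (m - 1) ≤ n + B ^ j + (t + 1) := by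
  obtain ⟨r, Q, hr, hQ⟩ := num_decomp hB hj
  set c' : Finset (Fin t) → ℤ := fun S => if sats (S.biUnion A) = ∅ then 0 else c S with hc'
  have h1 : ∑ S ∈ (univ : Finset (Finset (Fin t))), c' S * 2 ^ (n - #(S.biUnion A)) =
      (2 : ℤ) ^ ex B m j + r + 2 ^ (ex B m j + 1) * Q := by
    have h2 : (num B m : ℤ) = (2 : ℤ) ^ ex B m j + r + 2 ^ (ex B m j + 1) * Q := by
      rw [hQ]; push_cast; ring
    rw [← h2, h]
    refine sum_congr rfl fun S _ => ?_
    simp only [hc']
    rcases card_sats (S.biUnion A) with h3 | h3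
    · rw [if_pos h3, h3]; simp
    · have h4 : sats (S.biUnion A) ≠ ∅ := by
        intro h5
        rw [h5, card_empty] at h3
        have : 0 < 2 ^ (n - #(S.biUnion A)) := by positivity
        omega
      rw [if_neg h4, h3.2]; push_cast; rfl
  obtain ⟨S, -, hS0, hS1, hS2⟩ := window univ t (by simp) c' (fun S => n - #(S.biUnion A))
    (fun S _ => by
      simp only [hc']
      split_ifs
      · simp
      · exact hc S) _ r Q hr h1
  have hne : sats (S.biUnion A) ≠ ∅ := by
    intro h5
    apply hS0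
    simp only [hc']; rw [if_pos h5]
  have hcS : c S ≠ 0 := by
    intro h5
    apply hS0
    simp only [hc']; rw [h5]; simp
  have hle : #(S.biUnion A) ≤ n := ((card_sats (S.biUnion A)).resolve_left hne).1
  have h6 := ex_add hB hj
  refine ⟨S, hcS, nonempty_iff_ne_empty.2 hne, hle, by omega, by omega⟩

lemma dnf_bound {n t B m : ℕ} (hm : 2 ≤ m) (hB : (t + 1) * (t + 2) < B) (D : Fin t → Lits n)
    (h : countDNF D = num B m) : m ≤ t * t := by
  have hB4 : 4 ≤ B := by
    rcases Nat.eq_zero_or_pos t with ht | ht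
    · -- no terms: no satisfying assignments
      exfalso
      subst ht
      have h1 : countDNF D = 0 := by
        unfold countDNF
        rw [card_eq_zero, filter_eq_empty_iff]
        rintro x - ⟨i, -⟩
        exact i.elim0
      rw [h1] at h
      have : 0 < num B m := by
        unfold num
        exact sum_pos (fun i _ => by positivity) ⟨0, by rw [mem_range]; omega⟩
      omega
    · nlinarith
  have hcount : (num B m : ℤ) = ∑ S : Finset (Fin t),
      (if S = ∅ then 0 else -(-1 : ℤ) ^ #S) * #(sats (S.biUnion D)) := by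
    have h1 := incl_excl D
    have h2 : (countDNF D : ℤ) + #{x : Fin n → Bool | ∀ i, x ∉ sats (D i)} = 2 ^ n := by
      have h3 : countDNF D = #{x : Fin n → Bool | ¬ ∀ i, x ∉ sats (D i)} := by
        unfold countDNF
        congr 1
        ext x
        simp [mem_sats]
      rw [h3, add_comm]
      have h4 := card_filter_add_card_filter_not (s := (univ : Finset (Fin n → Bool)))
        (fun x => ∀ i, x ∉ sats (D i))
      have h5 : #(univ : Finset (Fin n → Bool)) = 2 ^ n := by simp
      rw [h5] at h4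
      exact_mod_cast h4
    rw [← h]
    have h6 : (2 : ℤ) ^ n = #(sats ((∅ : Finset (Fin t)).biUnion D)) := by
      simp [sats]
    have h7 : ∑ S : Finset (Fin t), (-1 : ℤ) ^ #S * #(sats (S.biUnion D)) =
        #(sats ((∅ : Finset (Fin t)).biUnion D)) +
          ∑ S ∈ univ.erase (∅ : Finset (Fin t)), (-1 : ℤ) ^ #S * #(sats (S.biUnion D)) := by
      rw [← add_sum_erase univ _ (mem_univ (∅ : Finset (Fin t)))]
      simp
    have h8 : ∑ S : Finset (Fin t),
        (if S = ∅ then 0 else -(-1 : ℤ) ^ #S) * #(sats (S.biUnion D)) =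
          -∑ S ∈ univ.erase (∅ : Finset (Fin t)), (-1 : ℤ) ^ #S * #(sats (S.biUnion D)) := by
      rw [← add_sum_erase univ _ (mem_univ (∅ : Finset (Fin t))), if_pos rfl, zero_mul, zero_add,
        ← sum_neg_distrib]
      refine sum_congr rfl fun S hS => ?_
      rw [if_neg (ne_of_mem_erase hS), neg_mul]
    rw [h8]
    linarith
  have hw := windows hB4 D _ (fun S => by
    split_ifs
    · simp
    · rw [abs_neg, abs_pow]; simp) hcount
  choose! S hS0 hS1 hS2 hS3 hS4 using hw
  have hSne : ∀ j, j < m → (S j).Nonempty := by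
    intro j hj
    by_contra hcon
    rw [not_nonempty_iff_eq_empty] at hcon
    apply hS0 j hj
    rw [if_pos hcon]
  have hchoice : ∀ j, j < m → ∃ i l, i ∈ S j ∧ l ∈ S j ∧
      ∀ l' ∈ S j, #(D l' \ D i) ≤ #(D l \ D i) := by
    intro j hj
    obtain ⟨i, hi⟩ := hSne j hj
    obtain ⟨l, hl, hl'⟩ := exists_max_image (S j) (fun l => #(D l \ D i)) ⟨i, hi⟩
    exact ⟨i, l, hi, hl, hl'⟩
  -- the case without terms was excluded
  have ht0 : 0 < t := by
    obtain ⟨i, -⟩ := hSne 0 (by omega)
    exact i.pos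
  haveI : Nonempty (Fin t) := ⟨⟨0, ht0⟩⟩
  choose! i l hi hl hmax using hchoice
  have hinj : Set.InjOn (fun j => (i j, l j)) (range m : Set ℕ) := by
    have key : ∀ j j', j < j' → j' < m → (i j, l j) ≠ (i j', l j') := by
      intro j j' hjj hj' heq
      have hj : j < m := hjj.trans hj'
      have e1 : i j = i j' := (Prod.ext_iff.1 heq).1
      have e2 : l j = l j' := (Prod.ext_iff.1 heq).2
      set α := #(D (i j)) with hα
      set μ := #(D (l j) \ D (i j)) with hμ
      have u1 : α + μ ≤ #((S j).biUnion D) := by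
        have : D (i j) ∪ (D (l j) \ D (i j)) ⊆ (S j).biUnion D := by
          intro x hx
          rw [mem_union, Finset.mem_sdiff] at hx
          rcases hx with hx | hx
          · exact mem_biUnion.2 ⟨i j, hi j hj, hx⟩
          · exact mem_biUnion.2 ⟨l j, hl j hj, hx.1⟩
        calc α + μ = #(D (i j) ∪ (D (l j) \ D (i j))) :=
              (card_union_of_disjoint disjoint_sdiff).symm
          _ ≤ _ := card_le_card this
      have u2 : #((S j').biUnion D) ≤ α + t * μ := by
        refine biUnion_card_le D (S j') (D (i j)) μ fun l' hl' => ?_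
        rw [hμ, e2, e1]
        exact hmax j' hj' l' hl'
      -- the single term is not too short
      have u3 : n < α + B ^ (m - 1) := by
        have h1 : (sats (D (i j))).Nonempty := by
          obtain ⟨x, hx⟩ := hS1 j hj
          rw [mem_sats] at hx
          exact ⟨x, mem_sats.2 fun l' hl' => hx l' (mem_biUnion.2 ⟨i j, hi j hj, hl'⟩)⟩
        have h2 := (card_sats (D (i j))).resolve_left (nonempty_iff_ne_empty.1 h1)
        have h3 : #(sats (D (i j))) ≤ countDNF D := by
          refine card_le_card fun x hx => ?_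
          rw [mem_filter]
          exact ⟨mem_univ _, i j, mem_sats.1 hx⟩
        rw [h, h2.2] at h3
        have h4 := h3.trans_lt (num_lt (m := m) hB4)
        have h5 := (Nat.pow_lt_pow_iff_right (by norm_num : 1 < 2)).1 h4
        omega
      have v1 := hS4 j hj
      have v2 := hS3 j' hj'
      have v3 : B ^ (j + 1) ≤ B ^ j' := Nat.pow_le_pow_right (by omega) hjj
      have v4 : 1 ≤ B ^ j := Nat.one_le_pow _ _ (by omega)
      have v5 : μ ≤ B ^ j + t := by omega
      have v6 : B ^ (j + 1) ≤ B ^ j + (t + 1) + t * μ := by omega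
      have v7 : t * μ ≤ t * (B ^ j + t) := Nat.mul_le_mul_left _ v5
      have v8 : (t + 1) * (t + 2) * B ^ j < B * B ^ j := Nat.mul_lt_mul_of_pos_right hB v4
      rw [pow_succ'] at v6
      have v9 : (t * t + 2 * t + 1) * 1 ≤ (t * t + 2 * t + 1) * B ^ j :=
        Nat.mul_le_mul_left _ v4
      generalize B ^ j = P at *
      have v10 : (t + 1) * (t + 2) * P < P + (t + 1) + t * (P + t) := by omega
      nlinarith
    intro j hj j' hj' heq
    rw [coe_range, Set.mem_Iio] at hj hj'
    rcases lt_trichotomy j j' with h1 | h1 | h1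
    · exact absurd heq (key j j' h1 hj')
    · exact h1
    · exact absurd heq.symm (key j' j h1 hj)
  have h1 := card_le_card_of_injOn (s := range m) (t := (univ : Finset (Fin t × Fin t)))
    (fun j => (i j, l j)) (fun _ _ => mem_univ _) hinj
  rw [card_range, card_univ, Fintype.card_prod, Fintype.card_fin] at h1
  exact h1

lemma cnf_bound {n t B m : ℕ} (hm : 2 ≤ m) (hB : 2 * (t + 2) * (t + 2) < B) (D : Fin t → Lits n)
    (h : countCNF D = num B m) : m ≤ t := by
  have hB4 : 4 ≤ B := by nlinarith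
  -- the falsifying terms
  set A : Fin t → Lits n := fun i => (D i).image fun l => (l.1, !l.2) with hA
  have hcount : (num B m : ℤ) = ∑ S : Finset (Fin t), (-1 : ℤ) ^ #S * #(sats (S.biUnion A)) := by
    rw [← incl_excl A, ← h]
    unfold countCNF
    congr 2
    ext x
    rw [mem_filter, mem_filter]
    refine and_congr Iff.rfl (forall_congr' fun i => ?_)
    rw [mem_sats]
    constructor
    · rintro ⟨l, hl, hx⟩ hcon
      have := hcon (l.1, !l.2) (mem_image_of_mem _ hl)
      simp only at this
      rw [hx] at this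
      exact absurd this (by cases l.2 <;> simp)
    · intro hcon
      by_contra hcon2
      push Not at hcon2
      apply hcon
      intro l hl
      obtain ⟨l', hl', rfl⟩ := mem_image.1 hl
      exact Bool.eq_not.2 (hcon2 l' hl')
  have hw := windows hB4 A _ (fun S => by rw [abs_pow]; simp) hcount
  choose! S hS0 hS1 hS2 hS3 hS4 using hw
  -- the number of variables
  have hn1 : B ^ (m - 1) ≤ n := by
    have h1 := num_gt hB4 hm
    have h2 : countCNF D ≤ 2 ^ n := by
      unfold countCNF
      refine (card_filter_le _ _).trans ?_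
      simp
    rw [h] at h2
    have h3 := (Nat.pow_lt_pow_iff_right (by norm_num : 1 < 2)).1 (h1.trans_le h2)
    omega
  have hn2 : n < B ^ (m - 1) + t := by
    -- a satisfying assignment
    have h1 : 0 < countCNF D := by
      rw [h]
      exact lt_of_le_of_lt (Nat.zero_le _) (num_gt hB4 hm)
    unfold countCNF at h1
    obtain ⟨x0, hx0⟩ := card_pos.1 h1
    rw [mem_filter] at hx0
    choose f hf hf' using hx0.2
    set T : Lits n := univ.image f with hT
    have h2 : (sats T).Nonempty := by
      refine ⟨x0, mem_sats.2 fun l hl => ?_⟩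
      obtain ⟨i, -, rfl⟩ := mem_image.1 hl
      exact hf' i
    have h3 := (card_sats T).resolve_left (nonempty_iff_ne_empty.1 h2)
    have h4 : #T ≤ t := by
      refine card_image_le.trans ?_
      simp
    have h5 : #(sats T) ≤ countCNF D := by
      refine card_le_card fun x hx => ?_
      rw [mem_filter]
      rw [mem_sats] at hx
      exact ⟨mem_univ _, fun i => ⟨f i, hf i, hx (f i) (mem_image_of_mem _ (mem_univ i))⟩⟩
    rw [h, h3.2] at h5
    have h6 := (Nat.pow_lt_pow_iff_right (by norm_num : 1 < 2)).1 (h5.trans_lt (num_lt hB4))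
    omega
  have hSne : ∀ j, j < m → (S j).Nonempty := by
    intro j hj
    by_contra hcon
    rw [not_nonempty_iff_eq_empty] at hcon
    have h1 := hS3 j hj
    rw [hcon, biUnion_empty, card_empty] at h1
    have v4 : 1 ≤ B ^ j := Nat.one_le_pow _ _ (by omega)
    omega
  have hchoice : ∀ j, j < m → ∃ l, l ∈ S j ∧ ∀ l' ∈ S j, #(A l') ≤ #(A l) := by
    intro j hj
    obtain ⟨l, hl, hl'⟩ := exists_max_image (S j) (fun l => #(A l)) (hSne j hj)
    exact ⟨l, hl, hl'⟩
  have ht0 : 0 < t := by
    obtain ⟨i, -⟩ := hSne 0 (by omega)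
    exact i.pos
  haveI : Nonempty (Fin t) := ⟨⟨0, ht0⟩⟩
  choose! l hl hmax using hchoice
  have hinj : Set.InjOn l (range m : Set ℕ) := by
    have key : ∀ j j', j < j' → j' < m → l j ≠ l j' := by
      intro j j' hjj hj' heq
      have hj : j < m := hjj.trans hj'
      set μ := #(A (l j)) with hμ
      have u1 : μ ≤ #((S j).biUnion A) := card_le_card fun x hx => mem_biUnion.2 ⟨l j, hl j hj, hx⟩
      have u2 : #((S j').biUnion A) ≤ t * μ := by
        have := biUnion_card_le A (S j') ∅ μ fun l' hl' => by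
          rw [sdiff_empty, hμ, heq]
          exact hmax j' hj' l' hl'
        simpa using this
      have v1 := hS4 j hj
      have v2 := hS3 j' hj'
      have v3 : B ^ (j + 1) ≤ B ^ j' := Nat.pow_le_pow_right (by omega) hjj
      have v4 : 1 ≤ B ^ j := Nat.one_le_pow _ _ (by omega)
      have v5 : μ ≤ B ^ j + 2 * t := by omega
      have v6 : B ^ (j + 1) ≤ t * μ := by omega
      have v7 : t * μ ≤ t * (B ^ j + 2 * t) := Nat.mul_le_mul_left _ v5
      have v8 : 2 * (t + 2) * (t + 2) * B ^ j < B * B ^ j := Nat.mul_lt_mul_of_pos_right hB v4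
      rw [pow_succ'] at v6
      have v9 : (2 * (t * t)) * 1 ≤ (2 * (t * t)) * B ^ j := Nat.mul_le_mul_left _ v4
      generalize B ^ j = P at *
      have v10 : 2 * (t + 2) * (t + 2) * P < t * (P + 2 * t) := by omega
      nlinarith [Nat.zero_le (t * P), Nat.zero_le P]
    intro j hj j' hj' heq
    rw [coe_range, Set.mem_Iio] at hj hj'
    rcases lt_trichotomy j j' with h1 | h1 | h1
    · exact absurd heq (key j j' h1 hj')
    · exact h1
    · exact absurd heq.symm (key j' j h1 hj)
  have h1 := card_le_card_of_injOn (s := range m) (t := (univ : Finset (Fin t)))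
    l (fun _ _ => mem_univ _) hinj
  rw [card_range, card_univ, Fintype.card_fin] at h1
  exact h1

/-- Every positive number is the number of satisfying assignments of some DNF. -/
lemma exists_formula (k : ℕ) :
    ∃ (t n : ℕ) (D : Fin t → Lits n), countDNF D = k ∨ countCNF D = k := by
  obtain ⟨n, hn⟩ : ∃ n, k ≤ 2 ^ n := ⟨k, Nat.lt_two_pow_self.le⟩
  obtain ⟨W, -, hW⟩ := exists_subset_card_eq (s := (univ : Finset (Fin n → Bool))) (n := k)
    (by simpa using hn)
  obtain ⟨e⟩ : Nonempty (Fin k ≃ W) := ⟨(W.equivFinOfCardEq hW).symm⟩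
  refine ⟨k, n, fun i => univ.image fun v => (v, (e i : Fin n → Bool) v), Or.inl ?_⟩
  unfold countDNF
  refine Eq.trans (congrArg card ?_) hW
  ext x
  rw [mem_filter]
  constructor
  · rintro ⟨-, i, hi⟩
    have : x = (e i : Fin n → Bool) := by
      funext v
      exact hi (v, (e i : Fin n → Bool) v) (mem_image_of_mem _ (mem_univ v))
    rw [this]; exact (e i).2
  · intro hx
    refine ⟨mem_univ _, e.symm ⟨x, hx⟩, fun l hl => ?_⟩
    obtain ⟨v, -, rfl⟩ := mem_image.1 hl
    simp

/-- There is no polynomial `p` with `β(k) ≤ p (log₂ bl(k))` for all positive `k`: for every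
polynomial `p` there is a positive integer `k` with `β(k) > p (log₂ bl(k))`. -/
theorem result (p : Polynomial ℝ) :
    ∃ k : ℕ, 0 < k ∧ p.eval (Real.logb 2 (bl k)) < beta k := by
  -- choose the size
  have hlog : 0 < Real.log 2 := Real.log_pos (by norm_num)
  obtain ⟨s, hs1, hs⟩ : ∃ s : ℕ, 1 ≤ s ∧ p.eval (2 * (s : ℝ)) < 2 ^ s := by
    set q : Polynomial ℝ := p.comp (Polynomial.C (2 / Real.log 2) * Polynomial.X) with hq
    have h1 := q.tendsto_div_exp_atTop
    have h2 : Filter.Tendsto (fun s : ℕ => (s : ℝ) * Real.log 2) Filter.atTop Filter.atTop :=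
      tendsto_natCast_atTop_atTop.atTop_mul_const hlog
    have h3 := (h1.comp h2).eventually (gt_mem_nhds one_pos)
    obtain ⟨s, hs1, hs2⟩ := (h3.and (Filter.eventually_ge_atTop 1)).exists
    refine ⟨s, hs2, ?_⟩
    simp only [Function.comp_apply] at hs1
    have h4 : Real.exp ((s : ℝ) * Real.log 2) = 2 ^ s := by
      rw [mul_comm, Real.exp_mul, Real.exp_log (by norm_num), Real.rpow_natCast]
    rw [h4, div_lt_one (by positivity)] at hs1
    have h5 : q.eval ((s : ℝ) * Real.log 2) = p.eval (2 * (s : ℝ)) := by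
      rw [hq, Polynomial.eval_comp]
      congr 1
      simp only [Polynomial.eval_mul, Polynomial.eval_C, Polynomial.eval_X]
      field_simp
    rw [h5] at hs1
    exact hs1
  set m : ℕ := 4 ^ s with hm
  have hm2 : 2 ≤ m := by
    calc 2 ≤ 4 ^ 1 := by norm_num
      _ ≤ 4 ^ s := Nat.pow_le_pow_right (by norm_num) hs1
  set B : ℕ := 2 * (m + 2) * (m + 2) with hB
  have hB4 : 4 ≤ B := by rw [hB]; nlinarith
  refine ⟨num B m, ?_, ?_⟩
  · exact lt_of_le_of_lt (Nat.zero_le _) (num_gt hB4 hm2)
  · rw [bl_num hB4]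
    have h1 : Real.logb 2 (m : ℝ) = 2 * s := by
      rw [hm]
      push_cast
      have : (4 : ℝ) ^ s = 2 ^ ((2 * s : ℕ) : ℝ) := by
        rw [Real.rpow_natCast, pow_mul]; norm_num
      rw [this, Real.logb_rpow (by norm_num) (by norm_num)]
      push_cast; rfl
    rw [h1]
    refine hs.trans_le ?_
    have hne : {t | ∃ (n : ℕ) (D : Fin t → Lits n), countDNF D = num B m ∨
        countCNF D = num B m}.Nonempty := exists_formula (num B m)
    obtain ⟨n, D, hD⟩ : ∃ (n : ℕ) (D : Fin (beta (num B m)) → Lits n),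
        countDNF D = num B m ∨ countCNF D = num B m := Nat.sInf_mem hne
    have hkey : ∀ t : ℕ, ∀ D : Fin t → Lits n, (countDNF D = num B m ∨ countCNF D = num B m) →
        2 ^ s ≤ t := by
      intro t D hD
      by_contra hlt
      push Not at hlt
      have h2s : 2 ^ s * 2 ^ s = m := by rw [hm, ← mul_pow]; norm_num
      have htm : t < m := hlt.trans_le (by
        rw [← h2s]; exact Nat.le_mul_of_pos_left _ (by positivity))
      rcases hD with h2 | h2
      · have h3 := dnf_bound hm2 (by rw [hB]; nlinarith) D h2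
        have : t * t < 2 ^ s * 2 ^ s := Nat.mul_lt_mul'' hlt hlt
        omega
      · have h3 := cnf_bound hm2 (by rw [hB]; nlinarith) D h2
        omega
    have := hkey _ D hD
    exact_mod_cast this

end Pool.Agent.Results.MP_94c5d9_co.BlockCount
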